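import Pool.Agent.H89.PM.Main
import Pool.Agent.H89.PM.All

set_option autoImplicit false

/-!
# The polarization module of `m_{(2,1^{d-2})}`: the formula of Q1 holds

Let `n ≥ d ≥ 3`, `ℓ ≥ 1` and let `M` be the polarization module of `m_{(2,1^{d-2})}` (in the variables
of the first row). `M` is finite-dimensional and is the sum of its parts of multidegree `r` (degree
`r i` in the `i`-th row); the `𝔖_n`-character of the part of multidegree `r` is
`∑_i coef d i |r| χ^{(n-i,i)}`, and the character of `GL_ℓ × 𝔖_n` on `M` at the pair of a diagonal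
matrix `q` and a permutation is given by the formula of Q1.

The proof: `M` is built from the one row version `⨁_j V_j`, where `V_j` is spanned by the derivatives
of `m_{(2,1^{d-2})}` and of `e_{d-1}`; `V_j` is isomorphic to a sum of two permutation modules on subsets
(of sizes `m` and `m - 1`, `m = min (j, d - j)`, `j ≥ 2`), since the disjointness matrices of subsets
have full rank.
-/

namespace Pool.Agent.Results.MP_30ddb3_co.CharacterFormula

open MvPolynomial Finset Pool.Agent.H89.PM

/-- The subspace `V` is stable under `T` and the trace of `T` on `V` is `t`. -/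
def HasTrace {ℓ n : ℕ} (V : Submodule ℂ (P ℓ n)) (T : P ℓ n →ₐ[ℂ] P ℓ n) (t : ℂ) : Prop :=
  (∀ v ∈ V, T v ∈ V) ∧
    ∀ φ : V →ₗ[ℂ] V, (∀ v, (φ v : P ℓ n) = T (v : P ℓ n)) → LinearMap.trace ℂ V φ = t

/-- The polynomial `m_{(2,1^{d-2})}` in the variables of the first row. -/
noncomputable def f21 (ℓ n d : ℕ) [NeZero ℓ] : P ℓ n := row ℓ (m21 n d)

theorem result (ℓ n d : ℕ) [NeZero ℓ] (hd : 3 ≤ d) (hn : d ≤ n) :
    -- (1) the polarization module is finite-dimensional and graded by the multidegree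
    FiniteDimensional ℂ (polMod (f21 ℓ n d)) ∧
    (∀ g ∈ polMod (f21 ℓ n d), ∀ r : Fin ℓ → ℕ,
      weightedHomogeneousComponent wt r g ∈ polMod (f21 ℓ n d)) ∧
    -- (2) the character of `𝔖_n` on the part of multidegree `r`
    (∀ (r : Fin ℓ → ℕ) (σ : Equiv.Perm (Fin n)), HasTrace (piece (f21 ℓ n d) r) (sAct σ)
      (∑ i ∈ range (d / 2 + 1), (coef d i (∑ k, r k) : ℂ) * chi i σ)) ∧
    -- (3) the character of `GL_ℓ × 𝔖_n`
    (∀ (q : Fin ℓ → ℂ) (σ : Equiv.Perm (Fin n)), HasTrace (polMod (f21 ℓ n d)) (dAct q σ)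
      (∑ i ∈ range (d / 2 + 1), (∑ j ∈ range (d + 1), (coef d i j : ℂ) * sch j q) * chi i σ)) :=
  asm pol1 sPOL2 sTRV all ℓ n d hd hn

end Pool.Agent.Results.MP_30ddb3_co.CharacterFormula
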